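import Pool.Agent.R824.Sums
import Pool.Agent.Helper292.ForceCH

/-!
`S₁(Ω, Ω)` and `S₁(Ω, O^{ω-gp})` are consistently different: the continuum hypothesis can be
forced, and it implies that there is a set of reals `X` which satisfies `S₁(Ω, O^{ω-gp})` but not
`S₁(Ω, Ω)`.  The set `X` is a Luzin set with `[0, 1] ⊆ X + X`.
-/

set_option autoImplicit false

namespace Pool.Agent.Results.MP_82c070_gt.ConsistentlyDifferent

open Set Filter Topology MeasureTheory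

/-- `𝒰` is an open cover of the set of reals `X`: a family of relatively open subsets of `X` whose
union is `X`. -/
def OpenCover (X : Set ℝ) (𝒰 : Set (Set ℝ)) : Prop :=
  (∀ u ∈ 𝒰, ∃ v : Set ℝ, IsOpen v ∧ u = X ∩ v) ∧ ⋃₀ 𝒰 = X

/-- `Ω`: the open ω-covers of `X`. -/
def Omega (X : Set ℝ) : Set (Set (Set ℝ)) :=
  {𝒰 | OpenCover X 𝒰 ∧ X ∉ 𝒰 ∧ ∀ F : Finset ℝ, (F : Set ℝ) ⊆ X → ∃ u ∈ 𝒰, (F : Set ℝ) ⊆ u}

/-- `O^{ω-gp}`: the open covers of `X` which can be partitioned into pairwise disjoint nonempty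
finite sets `𝓕 n` such that every finite subset of `X` is contained in the union of some `𝓕 n`. -/
def OmegaGp (X : Set ℝ) : Set (Set (Set ℝ)) :=
  {𝒰 | OpenCover X 𝒰 ∧ ∃ 𝓕 : ℕ → Set (Set ℝ), (∀ n, (𝓕 n).Finite) ∧ (∀ n, (𝓕 n).Nonempty) ∧
    (∀ m n, m ≠ n → Disjoint (𝓕 m) (𝓕 n)) ∧ 𝒰 = ⋃ n, 𝓕 n ∧
    ∀ F : Finset ℝ, (F : Set ℝ) ⊆ X → ∃ n, (F : Set ℝ) ⊆ ⋃₀ 𝓕 n}

/-- The selection principle `S₁(𝔄, 𝔅)`. -/
def S1 (𝔄 𝔅 : Set (Set (Set ℝ))) : Prop :=
  ∀ 𝒰 : ℕ → Set (Set ℝ), (∀ n, 𝒰 n ∈ 𝔄) → ∃ u : ℕ → Set ℝ, (∀ n, u n ∈ 𝒰 n) ∧ range u ∈ 𝔅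

/-- If `[0, 1] ⊆ X + X`, then `X` does not satisfy `S₁(Ω, Ω)`. -/
theorem not_s1 {X : Set ℝ} (hX : ∀ z ∈ Icc (0 : ℝ) 1, ∃ x ∈ X, ∃ y ∈ X, x + y = z) :
    ¬ S1 (Omega X) (Omega X) := by
  intro h
  let ε : ℕ → ENNReal := fun n => 2⁻¹ ^ (n + 2)
  have hε0 : ∀ n, ε n ≠ 0 := fun n => by simp [ε]
  have hεsum : ∑' n, ε n = 2⁻¹ := by
    have h1 : ∀ n, ε n = 2⁻¹ ^ (n + 1) * 2⁻¹ := fun n => by
      simp only [ε]
      rw [pow_succ]
    simp_rw [h1]
    rw [ENNReal.tsum_mul_right]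
    have h2 : ∑' n : ℕ, (2⁻¹ : ENNReal) ^ (n + 1) = 1 := by
      have := ENNReal.tsum_geometric_add_one (2⁻¹ : ENNReal)
      rw [this]
      rw [ENNReal.one_sub_inv_two]
      simp
      exact ENNReal.inv_mul_cancel (by norm_num) (by norm_num)
    rw [h2, one_mul]
  have hεlt : ∀ n, ε n < 1 := fun n => by
    simp only [ε]
    exact pow_lt_one₀ (by simp) (by rw [ENNReal.inv_lt_one]; norm_num) (by omega)
  let S : Set ℝ → Set ℝ := fun v => {z | ∃ x ∈ v, ∃ y ∈ v, x + y = z}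
  have hnot : ∀ n, ∀ v : Set ℝ, volume (S v) < ε n → ¬ X ⊆ v := by
    intro n v hv hXv
    have h1 : Icc (0 : ℝ) 1 ⊆ S v := by
      intro z hz
      obtain ⟨x, hx, y, hy, hxy⟩ := hX z hz
      exact ⟨x, hXv hx, y, hXv hy, hxy⟩
    have h2 : (1 : ENNReal) ≤ volume (S v) := by
      have h3 := measure_mono (μ := volume) h1
      rw [Real.volume_Icc] at h3
      simpa using h3
    exact absurd (h2.trans_lt hv) (not_lt.2 (hεlt n).le)
  have hcover : ∀ n, {u | ∃ v : Set ℝ, IsOpen v ∧ u = X ∩ v ∧ volume (S v) < ε n} ∈ Omega X := by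
    intro n
    have hω : ∀ F : Finset ℝ, (F : Set ℝ) ⊆ X →
        ∃ u ∈ {u | ∃ v : Set ℝ, IsOpen v ∧ u = X ∩ v ∧ volume (S v) < ε n}, (F : Set ℝ) ⊆ u := by
      intro F hF
      have hS : volume (S F) = 0 := by
        have h1 : S F = (fun p : ℝ × ℝ => p.1 + p.2) '' ((F : Set ℝ) ×ˢ (F : Set ℝ)) := by
          ext z
          simp only [S, mem_ofPred_eq, mem_image, mem_prod, Prod.exists]
          constructor
          · rintro ⟨x, hx, y, hy, hxy⟩
            exact ⟨x, y, ⟨hx, hy⟩, hxy⟩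
          · rintro ⟨x, y, ⟨hx, hy⟩, hxy⟩
            exact ⟨x, hx, y, hy, hxy⟩
        rw [h1]
        exact ((F.finite_toSet.prod F.finite_toSet).image _).measure_zero _
      obtain ⟨O, hSO, hO, hOε⟩ := Set.exists_isOpen_lt_of_lt (S F) (ε n) (by
        rw [hS]
        exact pos_iff_ne_zero.2 (hε0 n))
      have hsub : (F : Set ℝ) ×ˢ (F : Set ℝ) ⊆ (fun p : ℝ × ℝ => p.1 + p.2) ⁻¹' O := by
        rintro ⟨x, y⟩ ⟨hx, hy⟩
        exact hSO ⟨x, hx, y, hy, rfl⟩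
      obtain ⟨u, v, hu, hv, hFu, hFv, huv⟩ := generalized_tube_lemma F.finite_toSet.isCompact
        F.finite_toSet.isCompact (hO.preimage (by fun_prop)) hsub
      refine ⟨X ∩ (u ∩ v), ⟨u ∩ v, hu.inter hv, rfl, ?_⟩, fun x hx => ⟨hF hx, hFu hx, hFv hx⟩⟩
      refine lt_of_le_of_lt (measure_mono ?_) hOε
      rintro z ⟨x, hx, y, hy, rfl⟩
      exact huv (show (x, y) ∈ u ×ˢ v from ⟨hx.1, hy.2⟩)
    refine ⟨⟨?_, ?_⟩, ?_, hω⟩
    · rintro _ ⟨v, hv, rfl, -⟩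
      exact ⟨v, hv, rfl⟩
    · apply Subset.antisymm
      · rintro x ⟨_, ⟨v, -, rfl, -⟩, hx⟩
        exact hx.1
      · intro x hx
        obtain ⟨u, hu, hxu⟩ := hω {x} (by simpa using hx)
        exact ⟨u, hu, hxu (by simp)⟩
    · rintro ⟨v, -, hXv, hvε⟩
      refine hnot n v hvε ?_
      rw [hXv]
      exact inter_subset_right
  obtain ⟨u, hu, -, -, hω⟩ := h _ hcover
  choose v _hv huv hvε using hu
  have h1 : Icc (0 : ℝ) 1 ⊆ ⋃ n, S (v n) := by
    intro z hz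
    obtain ⟨x, hx, y, hy, hxy⟩ := hX z hz
    obtain ⟨_, ⟨n, rfl⟩, hn⟩ := hω {x, y} (by
      intro w hw
      rcases Finset.mem_insert.1 (Finset.mem_coe.1 hw) with rfl | hw
      · exact hx
      · rw [Finset.mem_singleton.1 hw]
        exact hy)
    have hxn : x ∈ v n := by
      have := hn (show x ∈ (({x, y} : Finset ℝ) : Set ℝ) by simp)
      rw [huv n] at this
      exact this.2
    have hyn : y ∈ v n := by
      have := hn (show y ∈ (({x, y} : Finset ℝ) : Set ℝ) by simp)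
      rw [huv n] at this
      exact this.2
    exact mem_iUnion.2 ⟨n, x, hxn, y, hyn, hxy⟩
  have h2 : (1 : ENNReal) ≤ ∑' n, ε n := by
    calc (1 : ENNReal) = volume (Icc (0 : ℝ) 1) := by rw [Real.volume_Icc]; simp
      _ ≤ volume (⋃ n, S (v n)) := measure_mono h1
      _ ≤ ∑' n, volume (S (v n)) := measure_iUnion_le _
      _ ≤ ∑' n, ε n := ENNReal.tsum_le_tsum fun n => (hvε n).le
  rw [hεsum] at h2
  rw [ENNReal.one_le_inv] at h2
  norm_num at h2

/-- A block structure from the functional Scheepers property. -/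
theorem exists_blocks {X : Set ℝ} {W : ℕ → ℕ → Set ℝ}
    (hWo : ∀ a n, IsOpen (W a n)) (hWc : ∀ a, X ⊆ ⋃ k, W a (a + k))
    (hS : ∀ O : ℕ → ℕ → Set ℝ, (∀ n m, IsOpen (O n m)) → (∀ n, Monotone (O n)) →
      (∀ n, X ⊆ ⋃ m, O n m) → ∃ h : ℕ → ℕ, ∀ F : Finset ℝ, (F : Set ℝ) ⊆ X →
        {n | (F : Set ℝ) ⊆ O n (h n)}.Infinite) :
    ∃ d : ℕ → ℕ, StrictMono d ∧ d 0 = 0 ∧ ∀ F : Finset ℝ, (F : Set ℝ) ⊆ X →
      ∃ j, (F : Set ℝ) ⊆ ⋃ n ∈ Ico (d j) (d (j + 1)), W (d j) n := by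
  classical
  let O : ℕ → ℕ → Set ℝ := fun a m => ⋂ a' ∈ Finset.range (a + 1), ⋃ k ∈ Finset.range m,
    W a' (a' + k)
  have hOo : ∀ a m, IsOpen (O a m) := fun a m =>
    isOpen_biInter_finset fun a' _ => isOpen_biUnion fun k _ => hWo _ _
  have hOm : ∀ a, Monotone (O a) := by
    intro a m m' hmm y hy
    simp only [O, mem_iInter] at hy ⊢
    intro a' ha'
    obtain ⟨k, hk, hyk⟩ := mem_iUnion₂.1 (hy a' ha')
    exact mem_iUnion₂.2 ⟨k, Finset.mem_range.2 ((Finset.mem_range.1 hk).trans_le hmm), hyk⟩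
  have hOc : ∀ a, X ⊆ ⋃ m, O a m := by
    intro a y hy
    have h1 : ∀ a', ∃ k, y ∈ W a' (a' + k) := fun a' => mem_iUnion.1 (hWc a' hy)
    choose k hk using h1
    refine mem_iUnion.2 ⟨(Finset.range (a + 1)).sup k + 1, ?_⟩
    simp only [O, mem_iInter]
    intro a' ha'
    refine mem_iUnion₂.2 ⟨k a', ?_, hk a'⟩
    exact Finset.mem_range.2 (Nat.lt_succ_of_le (Finset.le_sup ha'))
  obtain ⟨h, hh⟩ := hS O hOo hOm hOc
  let hm : ℕ → ℕ := fun a => (Finset.range (a + 1)).sup h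
  have hmono : Monotone hm := by
    intro a b hab
    exact Finset.sup_mono (by
      intro i hi
      exact Finset.mem_range.2 (by have := Finset.mem_range.1 hi; omega))
  have hle : ∀ a, h a ≤ hm a := fun a =>
    Finset.le_sup (f := h) (Finset.mem_range.2 (Nat.lt_succ_self a))
  obtain ⟨c, hc0, hcs⟩ : ∃ c : ℕ → ℕ, c 0 = 0 ∧ ∀ k, c (k + 1) = c k + 1 + hm (c k) :=
    ⟨fun k => Nat.rec 0 (fun _ x => x + 1 + hm x) k, rfl, fun _ => rfl⟩
  have hcmono : StrictMono c := strictMono_nat_of_lt_succ fun k => by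
    rw [hcs]; omega
  let K : Finset ℝ → Set ℕ := fun F =>
    {k | (F : Set ℝ) ⊆ ⋃ n ∈ Ico (c k) (c (k + 2)), W (c k) n}
  have hK : ∀ F : Finset ℝ, (F : Set ℝ) ⊆ X → ∀ N, ∃ k ∈ K F, N ≤ k := by
    intro F hF N
    obtain ⟨a, ha, haN⟩ := (hh F hF).exists_gt (c N)
    -- the block of `a`
    have hex : ∃ k, c k ≤ a ∧ a < c (k + 1) := by
      have h1 : ∃ k, a < c k := ⟨a + 1, lt_of_lt_of_le (Nat.lt_succ_self a) (hcmono.le_apply)⟩
      classical
      have h2 := Nat.find_spec h1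
      have h3 : Nat.find h1 ≠ 0 := by
        intro h4
        rw [h4, hc0] at h2
        omega
      obtain ⟨k, hk⟩ := Nat.exists_eq_succ_of_ne_zero h3
      refine ⟨k, ?_, ?_⟩
      · exact not_lt.1 (Nat.find_min h1 (by rw [hk]; exact Nat.lt_succ_self k))
      · rw [hk] at h2
        exact h2
    obtain ⟨k, hk1, hk2⟩ := hex
    have hNk : N ≤ k := by
      have h1 : c N < c (k + 1) := haN.trans hk2
      have := hcmono.lt_iff_lt.1 h1
      omega
    refine ⟨k, ?_, hNk⟩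
    intro y hy
    have h1 : y ∈ O a (h a) := ha hy
    simp only [O, mem_iInter] at h1
    obtain ⟨i, hi, hyi⟩ := mem_iUnion₂.1 (h1 (c k) (Finset.mem_range.2 (by omega)))
    refine mem_iUnion₂.2 ⟨c k + i, ⟨by omega, ?_⟩, hyi⟩
    have h2 := Finset.mem_range.1 hi
    have h3 : h a ≤ hm (c (k + 1)) := (hle a).trans (hmono hk2.le)
    have h4 := hcs (k + 1)
    have h5 : c k < c (k + 1) := hcmono (Nat.lt_succ_self k)
    show c k + i < c (k + 1 + 1)
    omega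
  have hKanti : ∀ F F' : Finset ℝ, F ⊆ F' → K F' ⊆ K F := fun F F' hFF k hk y hy =>
    hk (hFF hy)
  by_cases hev : ∀ F : Finset ℝ, (F : Set ℝ) ⊆ X → ∃ k ∈ K F, Even k
  · refine ⟨fun j => c (2 * j), fun i j hij => hcmono (show 2 * i < 2 * j by omega), by simp [hc0], fun F hF => ?_⟩
    obtain ⟨k, hk, j, hj⟩ := hev F hF
    refine ⟨j, ?_⟩
    have h1 : k = 2 * j := by omega
    subst h1
    have h2 : 2 * (j + 1) = 2 * j + 2 := by ring
    simp only [h2]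
    exact hk
  · push Not at hev
    obtain ⟨F₀, hF₀, hF₀e⟩ := hev
    refine ⟨fun j => if j = 0 then 0 else c (2 * j - 1), ?_, by simp, fun F hF => ?_⟩
    · refine strictMono_nat_of_lt_succ fun j => ?_
      rcases Nat.eq_zero_or_pos j with rfl | hj
      · simp only [if_true]
        have : c 0 < c 1 := hcmono Nat.zero_lt_one
        simpa [hc0] using this
      · have h1 : j ≠ 0 := by omega
        simp only [h1, if_false, Nat.succ_ne_zero]
        exact hcmono (show 2 * j - 1 < 2 * (j + 1) - 1 by omega)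
    · obtain ⟨k, hk, hk1⟩ := hK (F ∪ F₀) (by
        rw [Finset.coe_union]
        exact union_subset hF hF₀) 1
      have hodd : ¬ Even k := hF₀e k (hKanti _ _ Finset.subset_union_right hk)
      rw [Nat.not_even_iff_odd] at hodd
      obtain ⟨j, hj⟩ := hodd
      refine ⟨j + 1, ?_⟩
      have h1 : 2 * (j + 1) - 1 = k := by omega
      have h2 : 2 * (j + 1 + 1) - 1 = k + 2 := by omega
      simp only [Nat.succ_ne_zero, if_false, h1, h2]
      exact hKanti _ _ Finset.subset_union_left hk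

/-- The Rothberger property together with the functional form of the Scheepers property gives
`S₁(Ω, O^{ω-gp})`. -/
theorem s1_gp {X : Set ℝ} (hne : X.Nonempty)
    (hR : ∀ 𝒱 : ℕ → Set (Set ℝ), (∀ n, ∀ V ∈ 𝒱 n, IsOpen V) → (∀ n, X ⊆ ⋃₀ 𝒱 n) →
      ∃ V : ℕ → Set ℝ, (∀ n, V n ∈ 𝒱 n) ∧ X ⊆ ⋃ n, V n)
    (hS : ∀ O : ℕ → ℕ → Set ℝ, (∀ n m, IsOpen (O n m)) → (∀ n, Monotone (O n)) →
      (∀ n, X ⊆ ⋃ m, O n m) → ∃ h : ℕ → ℕ, ∀ F : Finset ℝ, (F : Set ℝ) ⊆ X →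
        {n | (F : Set ℝ) ⊆ O n (h n)}.Infinite) :
    S1 (Omega X) (OmegaGp X) := by
  classical
  intro 𝒰 h𝒰
  -- finitely many members can be discarded
  have hdiscard : ∀ n, ∀ 𝓗 : Set (Set ℝ), 𝓗.Finite → ∀ x ∈ X, ∃ u ∈ 𝒰 n, u ∉ 𝓗 ∧ x ∈ u := by
    intro n 𝓗 h𝓗 x hx
    have h1 : ∀ H ∈ 𝓗 ∩ 𝒰 n, ∃ p ∈ X, p ∉ H := by
      rintro H ⟨-, hH⟩
      by_contra hcon
      push Not at hcon
      have h2 : H ⊆ X := by
        have h3 := (h𝒰 n).1.2
        rw [← h3]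
        exact subset_sUnion_of_mem hH
      exact (h𝒰 n).2.1 (by rw [← h2.antisymm hcon]; exact hH)
    choose! p hpX hpH using h1
    have hfin : (𝓗 ∩ 𝒰 n).Finite := h𝓗.inter_of_left _
    obtain ⟨u, hu, hFu⟩ := (h𝒰 n).2.2 (insert x (hfin.toFinset.image p)) (by
      intro y hy
      rcases Finset.mem_insert.1 (Finset.mem_coe.1 hy) with rfl | hy
      · exact hx
      · obtain ⟨H, hH, rfl⟩ := Finset.mem_image.1 hy
        exact hpX H (hfin.mem_toFinset.1 hH))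
    refine ⟨u, hu, fun hu𝓗 => ?_, hFu (by simp)⟩
    refine hpH u ⟨hu𝓗, hu⟩ (hFu ?_)
    exact Finset.mem_coe.2 (Finset.mem_insert_of_mem
      (Finset.mem_image_of_mem _ (hfin.mem_toFinset.2 ⟨hu𝓗, hu⟩)))
  -- the selections, by recursion on the starting point
  obtain ⟨W, hW⟩ := Pool.Agent.R824.Sums.exists_transfinite (ι := ℕ) (E := ℕ → Set ℝ)
    (fun a prev y => (∀ n, y n ∈ 𝒰 n) ∧ X ⊆ ⋃ k, y (a + k) ∧
      ∀ n, ∀ a' < a, ∀ n' < a, y n ≠ prev a' n') (by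
      intro a prev
      let 𝓗 : Set (Set ℝ) := (fun q : ℕ × ℕ => prev q.1 q.2) '' (Iio a ×ˢ Iio a)
      have h𝓗 : 𝓗.Finite := ((finite_Iio a).prod (finite_Iio a)).image _
      obtain ⟨V, hV, hVX⟩ := hR (fun k => {v | IsOpen v ∧ X ∩ v ∈ 𝒰 (a + k) ∧ X ∩ v ∉ 𝓗})
        (fun k v hv => hv.1) (by
          intro k x hx
          obtain ⟨u, hu, huH, hxu⟩ := hdiscard (a + k) 𝓗 h𝓗 x hx
          obtain ⟨v, hv, rfl⟩ := (h𝒰 (a + k)).1.1 u hu
          exact ⟨v, ⟨hv, hu, huH⟩, hxu.2⟩)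
      obtain ⟨x₀, hx₀⟩ := hne
      have hdef : ∀ n, ∃ u ∈ 𝒰 n, u ∉ 𝓗 := fun n => by
        obtain ⟨u, h1, h2, -⟩ := hdiscard n 𝓗 h𝓗 x₀ hx₀
        exact ⟨u, h1, h2⟩
      choose u0 hu0 hu0H using hdef
      refine ⟨fun n => if a ≤ n then X ∩ V (n - a) else u0 n, fun n => ?_, fun x hx => ?_,
        fun n a' ha' n' hn' => ?_⟩
      · by_cases han : a ≤ n
        · simp only [han, if_true]
          have h1 := (hV (n - a)).2.1
          have h2 : a + (n - a) = n := by omega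
          rw [h2] at h1
          exact h1
        · simp only [han, if_false]
          exact hu0 n
      · obtain ⟨k, hk⟩ := mem_iUnion.1 (hVX hx)
        refine mem_iUnion.2 ⟨k, ?_⟩
        have h1 : a ≤ a + k := by omega
        have h2 : a + k - a = k := by omega
        simp only [h1, if_true, h2]
        exact ⟨hx, hk⟩
      · have hmem : prev a' n' ∈ 𝓗 := ⟨(a', n'), ⟨ha', hn'⟩, rfl⟩
        by_cases han : a ≤ n
        · simp only [han, if_true]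
          intro h
          rw [← h] at hmem
          exact (hV (n - a)).2.2 hmem
        · simp only [han, if_false]
          intro h
          rw [← h] at hmem
          exact hu0H n hmem) (by
      intro a prev prev' y hprev hy
      refine ⟨hy.1, hy.2.1, fun n a' ha' n' hn' => ?_⟩
      rw [← hprev a' ha']
      exact hy.2.2 n a' ha' n' hn')
  -- open sets of the real line with the selected traces
  have hlift : ∀ a n, ∃ v : Set ℝ, IsOpen v ∧ W a n = X ∩ v := fun a n =>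
    (h𝒰 n).1.1 _ ((hW a).1 n)
  choose V hVo hWV using hlift
  obtain ⟨d, hd, hd0, hblk⟩ := exists_blocks (X := X) (W := V) hVo (by
    intro a x hx
    obtain ⟨k, hk⟩ := mem_iUnion.1 ((hW a).2.1 hx)
    rw [hWV] at hk
    exact mem_iUnion.2 ⟨k, hk.2⟩) hS
  -- the block of an index
  have hblock : ∀ n, ∃ j, d j ≤ n ∧ n < d (j + 1) := by
    intro n
    have h1 : ∃ k, n < d k := ⟨n + 1, lt_of_lt_of_le (Nat.lt_succ_self n) hd.le_apply⟩
    have h2 := Nat.find_spec h1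
    have h3 : Nat.find h1 ≠ 0 := by
      intro h4
      rw [h4, hd0] at h2
      omega
    obtain ⟨k, hk⟩ := Nat.exists_eq_succ_of_ne_zero h3
    refine ⟨k, ?_, ?_⟩
    · exact not_lt.1 (Nat.find_min h1 (by rw [hk]; exact Nat.lt_succ_self k))
    · rw [hk] at h2
      exact h2
  choose jj hj1 hj2 using hblock
  have hjj : ∀ n j, d j ≤ n → n < d (j + 1) → jj n = j := by
    intro n j h1 h2
    have h3 := hd.lt_iff_lt.1 ((hj1 n).trans_lt h2)
    have h4 := hd.lt_iff_lt.1 (h1.trans_lt (hj2 n))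
    omega
  let G : ℕ → Set ℝ := fun n => W (d (jj n)) n
  have hG : ∀ n, G n ∈ 𝒰 n := fun n => (hW _).1 n
  have hGX : ∀ n, G n ⊆ X := by
    intro n
    rw [show G n = X ∩ V (d (jj n)) n from hWV _ _]
    exact inter_subset_left
  have hgp : ∀ F : Finset ℝ, (F : Set ℝ) ⊆ X →
      ∃ j, (F : Set ℝ) ⊆ ⋃₀ (G '' Ico (d j) (d (j + 1))) := by
    intro F hF
    obtain ⟨j, hj⟩ := hblk F hF
    refine ⟨j, fun x hx => ?_⟩
    obtain ⟨n, hn, hxn⟩ := mem_iUnion₂.1 (hj hx)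
    refine ⟨G n, mem_image_of_mem _ hn, ?_⟩
    show x ∈ W (d (jj n)) n
    rw [hjj n j hn.1 hn.2, hWV]
    exact ⟨hF hx, hxn⟩
  refine ⟨G, hG, ⟨?_, ?_⟩, fun j => G '' Ico (d j) (d (j + 1)), fun j => (finite_Ico _ _).image _,
    fun j => ⟨G (d j), mem_image_of_mem _ ⟨le_refl _, hd (Nat.lt_succ_self j)⟩⟩, ?_, ?_, hgp⟩
  · rintro _ ⟨n, rfl⟩
    exact ⟨V (d (jj n)) n, hVo _ _, hWV _ _⟩
  · apply Subset.antisymm
    · rintro x ⟨_, ⟨n, rfl⟩, hx⟩
      exact hGX n hx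
    · intro x hx
      obtain ⟨j, hj⟩ := hgp {x} (by simpa using hx)
      obtain ⟨_, ⟨n, -, rfl⟩, hxn⟩ := hj (show x ∈ (({x} : Finset ℝ) : Set ℝ) by simp)
      exact ⟨G n, mem_range_self n, hxn⟩
  · -- disjointness of the blocks
    have key : ∀ i j, i < j → Disjoint (G '' Ico (d i) (d (i + 1))) (G '' Ico (d j) (d (j + 1))) := by
      intro i j hij
      rw [Set.disjoint_left]
      rintro _ ⟨n, hn, rfl⟩ ⟨n', hn', h⟩
      have h1 : jj n = i := hjj n i hn.1 hn.2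
      have h2 : jj n' = j := hjj n' j hn'.1 hn'.2
      have h3 : d i < d j := hd hij
      have h4 : n < d j := hn.2.trans_le (hd.monotone hij)
      have h5 : W (d (jj n')) n' = W (d (jj n)) n := h
      rw [h1, h2] at h5
      exact (hW (d j)).2.2 n' (d i) h3 n h4 h5
    intro i j hij
    rcases lt_or_gt_of_ne hij with h | h
    · exact key i j h
    · exact (key j i h).symm
  · apply Subset.antisymm
    · rintro _ ⟨n, rfl⟩
      exact mem_iUnion.2 ⟨jj n, n, ⟨hj1 n, hj2 n⟩, rfl⟩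
    · intro u hu
      obtain ⟨j, n, -, rfl⟩ := mem_iUnion.1 hu
      exact mem_range_self n

/-- (1) There is a notion of forcing all of whose conditions force that `ω₁` is preserved and that
the continuum hypothesis holds. (2) The continuum hypothesis implies that there is a set of reals
which satisfies `S₁(Ω, O^{ω-gp})` and does not satisfy `S₁(Ω, Ω)`. -/
theorem result :
    (∃ (P : Type) (_ : Preorder P), Nonempty P ∧ ∀ p : P,
      p ∈ Pool.Agent.Helper292.ForceCH.OmegaOnePreserved P ∧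
      p ∈ Pool.Agent.Helper292.ForceCH.CHHolds P) ∧
    (Cardinal.aleph 1 = Cardinal.continuum.{0} →
      ∃ X : Set ℝ, S1 (Omega X) (OmegaGp X) ∧ ¬ S1 (Omega X) (Omega X)) := by
  refine ⟨?_, fun hCH => ?_⟩
  · obtain ⟨P, i, h1, h2⟩ := Pool.Agent.Helper292.ForceCH.exists_forcing
    exact ⟨P, i, h1, fun p => ⟨(h2 p).1, (h2 p).2.2⟩⟩
  · obtain ⟨X, hne, hsum, hR, hS⟩ := Pool.Agent.R824.Sums.exists_set hCH
    exact ⟨X, s1_gp hne hR hS, not_s1 hsum⟩

end Pool.Agent.Results.MP_82c070_gt.ConsistentlyDifferent
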